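import Mathlib
import Pool.Agent.N484.KC.G
set_option autoImplicit false

/-!
# Families of `δ`-tubes as convolution operators, at the endpoint; structured superlevel sets

Let `M = Σ_i 1_{T_i}` be the multiplicity function of a family of `N` `δ`-tubes of `ℝ^n`, `n ≥ 2`, with
`δ`-separated orientations and arbitrary positions, and let `R_q = δ^((n-1)/q) N^(1-1/(q(n-1)))` be
the right-hand side of the conjectured inequality `‖M‖_q ≤ C R_q`. By duality the inequality says
that `∫ W M ≤ C R_q ‖W‖_{q'}` for all `W ≥ 0`. At the endpoint `q = n/(n-1)` it is false.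

1. For all families, ALL convolutions `W = F * G` and all `q ≥ n/(n-1)`, the endpoint included and
   without any loss, `∫ (F * G) M ≤ C R_q ‖F‖_a ‖G‖_a`, `a = 2q/(2q-1)`; by Young's inequality the
   right side majorises `C R_q ‖F * G‖_{q'}`. Equivalently, convolution with `M` maps `L^a` to `L^(2q)`
   with the norm predicted by the conjecture. At the endpoint this holds with arbitrary
   nonnegative coefficients.
2. (sets with small sumsets) `∫_B M ≤ C R_q (|B + B|/|B|)^(1-1/(2q)) |B|^(1-1/q)`.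
3. (additive energy) if `M ≥ μ` on `B`, then
   `μ E(A,B)^(1-1/(2q)) ≤ C R_q |A|^(2-3/(2q)) |B|^(1-1/q)` for all `A`.
4. (the inequality of the problem) for every `q > n/(n-1)`: if every superlevel set `{M ≥ μ}` has a
   subset of at least `κ` times its volume with additive energy at least `κ` times the maximal
   one, then `‖M‖_q ≤ C κ^(-(n/(n-1)+1/2)/q) R_q`. So the superlevel sets of a counterexample have
   little additive structure.

Proof: by the Cauchy-Schwarz inequality the bilinear form of one tube is bounded by the energies of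
`F` and of `G` for the tube moved to the origin; the moved tubes form a bush, whose multiplicity
function satisfies `∫_B ≤ C R_q |B|^(1-1/q)` for all sets `B`, at the endpoint too, and the
Hardy-Littlewood-Sobolev argument applies.
-/

namespace Pool.Agent.N484.Shelf.ConvolutionOperators

open MeasureTheory Set Metric
open scoped ENNReal Pointwise

/-- The space `ℝ^n`. -/
abbrev Rn (n : ℕ) : Type := EuclideanSpace ℝ (Fin n)

/-- The `δ`-tube with centre `a` and direction `e` (a unit vector): the closed cylinder of length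
`1` and radius `δ` around the segment with centre `a` and direction `e`. -/
def tube {n : ℕ} (δ : ℝ) (a e : Rn n) : Set (Rn n) :=
  {y | |inner ℝ (y - a) e| ≤ 1 / 2 ∧ ‖(y - a) - (inner ℝ (y - a) e) • e‖ ≤ δ}

/-- `0 < δ < 1` and `e` is a `δ`-separated family of unit vectors. -/
def Separated {n : ℕ} {ι : Type} (δ : ℝ) (e : ι → Rn n) : Prop :=
  0 < δ ∧ δ < 1 ∧ (∀ i, ‖e i‖ = 1) ∧ ∀ i j, i ≠ j → δ ≤ ‖e i - e j‖

/-- The function `Σ_i c_i 1_{T_i}`, where `T_i` is the `δ`-tube with centre `a i` and direction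
`e i`. -/
noncomputable def total {n : ℕ} {ι : Type} [Fintype ι] (δ : ℝ) (a e : ι → Rn n) (c : ι → ℝ≥0∞)
    (x : Rn n) : ℝ≥0∞ := ∑ i, (tube δ (a i) (e i)).indicator (fun _ => c i) x

/-- The number of the tubes that contain `x`. -/
noncomputable def mult {n : ℕ} {ι : Type} [Fintype ι] (δ : ℝ) (a e : ι → Rn n) :
    Rn n → ℝ≥0∞ := total δ a e (fun _ => 1)

/-- The right-hand side `δ^((n-1)/q) N^(1-1/(q(n-1)))` of the conjectured inequality for `N` tubes,
without the constant. -/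
noncomputable def rhs (n : ℕ) (q δ : ℝ) (N : ℕ) : ℝ :=
  δ ^ (((n : ℝ) - 1) / q) * (N : ℝ) ^ (1 - 1 / (q * ((n : ℝ) - 1)))

/-- The norm of `F ≥ 0` in `L^p`. -/
noncomputable def lp {n : ℕ} (p : ℝ) (F : Rn n → ℝ≥0∞) : ℝ≥0∞ := (∫⁻ x, F x ^ p) ^ (1 / p)

/-- The convolution `F * G`. -/
noncomputable def conv {n : ℕ} (F G : Rn n → ℝ≥0∞) (x : Rn n) : ℝ≥0∞ := ∫⁻ y, F y * G (x - y)

/-- The additive energy `∫ |{y : y ∈ A, w - y ∈ B}|² dw`. -/
noncomputable def addEnergy {n : ℕ} (A B : Set (Rn n)) : ℝ≥0∞ :=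
  ∫⁻ w, volume {y | y ∈ A ∧ w - y ∈ B} ^ 2

/-- The dual form of the inequality `‖M‖_q ≤ K` for all convolutions, and its operator form:
convolution with `M` maps `L^a` to `L^(2q)`, `a = 2q/(2q-1)`, with norm at most `K`. -/
def ConvolutionBound {n : ℕ} (q : ℝ) (K : ℝ≥0∞) (M : Rn n → ℝ≥0∞) : Prop :=
  (∀ F G : Rn n → ℝ≥0∞, Measurable F → Measurable G →
    ∫⁻ x, conv F G x * M x ≤ K * lp (2 * q / (2 * q - 1)) F * lp (2 * q / (2 * q - 1)) G) ∧
  (∀ F : Rn n → ℝ≥0∞, Measurable F → lp (2 * q) (conv M F) ≤ K * lp (2 * q / (2 * q - 1)) F)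

/-- The inequality for small sumsets. -/
def SumsetBound {n : ℕ} (q : ℝ) (K : ℝ≥0∞) (M : Rn n → ℝ≥0∞) : Prop :=
  ∀ A B : Set (Rn n), MeasurableSet A → MeasurableSet B → volume A ≠ ∞ →
    volume A ^ (1 / (2 * q)) * ∫⁻ x in B, M x ≤ K * volume (A + B) ^ (1 - 1 / (2 * q))

/-- The inequality for subsets `B` of superlevel sets, in terms of additive energies. -/
def EnergyBound {n : ℕ} (q : ℝ) (K : ℝ≥0∞) (M : Rn n → ℝ≥0∞) : Prop :=
  ∀ (μ : ℝ≥0∞) (A B : Set (Rn n)), MeasurableSet A → MeasurableSet B → volume A ≠ ∞ →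
    volume B ≠ ∞ → (∀ x ∈ B, μ ≤ M x) →
    μ * addEnergy A B ^ (1 - 1 / (2 * q)) ≤
      K * (volume A ^ (2 - 3 / (2 * q)) * volume B ^ (1 - 1 / q))

/-- Every superlevel set of `M` contains a set of comparable volume with large additive energy. -/
def Structured {n : ℕ} (κ : ℝ) (M : Rn n → ℝ≥0∞) : Prop :=
  ∀ μ : ℝ, 0 < μ → ∃ B : Set (Rn n), MeasurableSet B ∧ B ⊆ {x | ENNReal.ofReal μ ≤ M x} ∧
    ENNReal.ofReal κ * volume {x | ENNReal.ofReal μ ≤ M x} ≤ volume B ∧
    ENNReal.ofReal κ * volume B ^ 3 ≤ addEnergy B B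

open Pool.Agent.N484.KC in
lemma total_eq {n : ℕ} {ι : Type} [Fintype ι] (δ : ℝ) (a e : ι → Rn n) (c : ι → ℝ≥0∞)
    (x : Rn n) : total δ a e c x = ∑ i, c i * ind (cyl (e i) (1 / 2) δ) (x - a i) := by
  unfold total
  refine Finset.sum_congr rfl fun i _ => ?_
  by_cases h : x - a i ∈ cyl (e i) (1 / 2) δ
  · rw [ind_mem h, mul_one, indicator_of_mem (by exact h)]
  · rw [ind_not h, mul_zero, indicator_of_notMem (by exact h)]

open Pool.Agent.N484.KC in
lemma total_meas {n : ℕ} {ι : Type} [Fintype ι] (δ : ℝ) (a e : ι → Rn n) (c : ι → ℝ≥0∞) :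
    Measurable (total δ a e c) := by
  have : total δ a e c = fun x => ∑ i, c i * ind (cyl (e i) (1 / 2) δ) (x - a i) :=
    funext fun x => total_eq δ a e c x
  rw [this]
  exact Finset.measurable_sum _ fun i _ => ((ind_meas (cyl_meas _ _ _)).comp
    (measurable_id.sub_const _)).const_mul _

open Pool.Agent.N484.KC in
/-- all three inequalities from the estimate of the kernel -/
lemma all_of {n : ℕ} {ι : Type} [Fintype ι] {δ : ℝ} {a e : ι → Rn n} {c : ι → ℝ≥0∞}
    (hδ : 0 < δ) (he : ∀ i, ‖e i‖ = 1) {q : ℝ} (hq : 1 < q) (K : ℝ≥0∞)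
    (hK : ∀ B, MeasurableSet B → ∫⁻ w in B, ker δ e c w ≤ K * volume B ^ (1 - 1 / q)) :
    Test q (2 ^ n * (K * (2 * cH (q / (q - 1))))) (total δ a e c) := by
  have hq0 : 0 < q := by linarith
  have hq1 : 0 < q - 1 := by linarith
  have hr : 1 < q / (q - 1) := by rw [lt_div_iff₀ hq1]; linarith
  intro F G hF hG
  have e1 : pe (q / (q - 1)) = dq q := by
    unfold pe dq
    have h1 : q - 1 ≠ 0 := hq1.ne'
    have h2 : 2 * q - 1 ≠ 0 := by linarith
    have h3 : q + (q - 1) ≠ 0 := by linarith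
    field_simp
    ring
  have e2 : 1 / (q / (q - 1)) = 1 - 1 / q := by field_simp
  have h1 := form_hls δ hδ a e he c hr K (fun B hB => by rw [e2]; exact hK B hB) F G hF hG
  rw [e1, ← cv_form δ a e c hF hG] at h1
  refine le_trans (le_of_eq (lintegral_congr fun x => ?_)) h1
  rw [total_eq]

open Pool.Agent.N484.KC in
lemma three_of {n : ℕ} {q : ℝ} (hq : 1 < q) {K : ℝ≥0∞} {M : Rn n → ℝ≥0∞} (hM : Measurable M)
    (hT : Test q K M) : ConvolutionBound q K M ∧ SumsetBound q K M ∧ EnergyBound q K M :=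
  ⟨⟨hT, fun F hF => op_of hq hM hT F hF⟩,
    fun A B hA hB hAf => sum_of hq hM hT A B hA hB hAf,
    fun μ A B hA hB hAf hBf hμ => energy_of hq hT A B hA hB hAf hBf μ hμ⟩

open Pool.Agent.N484.KC in
/-- **Families of `δ`-tubes with `δ`-separated orientations as convolution operators.** -/
theorem result (n : ℕ) (hn : 2 ≤ n) :
    -- (1) the endpoint `q = n/(n-1)`, with arbitrary nonnegative coefficients
    (∃ C : ℝ, 0 < C ∧ ∀ (ι : Type) [Fintype ι] (a e : ι → Rn n) (δ : ℝ) (c : ι → ℝ≥0∞),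
      Separated δ e → ∀ K : ℝ≥0∞, K = ENNReal.ofReal C * (ENNReal.ofReal (δ ^ ((n : ℝ) - 1)) *
        ∑ i, c i ^ ((n : ℝ) / ((n : ℝ) - 1))) ^ (((n : ℝ) - 1) / n) →
      ConvolutionBound ((n : ℝ) / ((n : ℝ) - 1)) K (total δ a e c) ∧
      SumsetBound ((n : ℝ) / ((n : ℝ) - 1)) K (total δ a e c) ∧
      EnergyBound ((n : ℝ) / ((n : ℝ) - 1)) K (total δ a e c)) ∧
    -- (2) all exponents `q ≥ n/(n-1)`, with the constant of the conjecture
    (∀ q : ℝ, (n : ℝ) / ((n : ℝ) - 1) ≤ q → ∃ C : ℝ, 0 < C ∧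
      ∀ (ι : Type) [Fintype ι] (a e : ι → Rn n) (δ : ℝ), Separated δ e →
      ConvolutionBound q (ENNReal.ofReal (C * rhs n q δ (Fintype.card ι))) (mult δ a e) ∧
      SumsetBound q (ENNReal.ofReal (C * rhs n q δ (Fintype.card ι))) (mult δ a e) ∧
      EnergyBound q (ENNReal.ofReal (C * rhs n q δ (Fintype.card ι))) (mult δ a e)) ∧
    -- (3) the inequality of the problem, in the full range, for families with structured
    -- superlevel sets
    (∀ q : ℝ, (n : ℝ) / ((n : ℝ) - 1) < q → ∃ C : ℝ, 0 < C ∧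
      ∀ (ι : Type) [Fintype ι] (a e : ι → Rn n) (δ κ : ℝ), Separated δ e → 0 < κ →
      Structured κ (mult δ a e) →
      lp q (mult δ a e) ≤ ENNReal.ofReal
        (C * κ ^ (-(((n : ℝ) / ((n : ℝ) - 1) + 1 / 2) / q)) * rhs n q δ (Fintype.card ι))) := by
  have hn2 : (2 : ℝ) ≤ n := by exact_mod_cast hn
  have hn0 : (0 : ℝ) < n := by linarith
  have hn1 : (0 : ℝ) < (n : ℝ) - 1 := by linarith
  set q₀ : ℝ := (n : ℝ) / ((n : ℝ) - 1) with hq₀
  have hq₀1 : 1 < q₀ := by rw [hq₀, lt_div_iff₀ hn1]; linarith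
  have hq₀0 : 0 < q₀ := by linarith
  -- the second part
  have h2 : ∀ q : ℝ, q₀ ≤ q → ∃ C : ℝ, 0 < C ∧
      ∀ (ι : Type) [Fintype ι] (a e : ι → Rn n) (δ : ℝ), Separated δ e →
      Test q (ENNReal.ofReal (C * rhs n q δ (Fintype.card ι))) (mult δ a e) := by
    intro q hq
    have hq1 : 1 < q := hq₀1.trans_le hq
    obtain ⟨C, hC, h⟩ := ker_gen hn hq
    have hr : 1 < q / (q - 1) := by rw [lt_div_iff₀ (by linarith)]; linarith
    set D : ℝ := (cH (q / (q - 1))).toReal with hD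
    have hD0 : 0 ≤ D := ENNReal.toReal_nonneg
    have hDe : cH (q / (q - 1)) = ENNReal.ofReal D := (ENNReal.ofReal_toReal (cH_ne_top hr)).symm
    refine ⟨2 ^ n * (C * (2 * D)) + 1, by positivity, ?_⟩
    intro ι _ a e δ hs
    obtain ⟨hδ, hδ1, he, hsep⟩ := hs
    have hK := all_of (a := a) hδ he hq1 _ (h δ hδ hδ1 e he hsep)
    have hrh : 0 ≤ rhs n q δ (Fintype.card ι) := by unfold rhs; positivity
    intro F G hF hG
    refine (hK F G hF hG).trans ?_
    gcongr ?_ * _ * _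
    rw [hDe]
    have e1 : (2 : ℝ≥0∞) = ENNReal.ofReal 2 := by norm_num
    have e2 : (2 : ℝ≥0∞) ^ n = ENNReal.ofReal (2 ^ n) := by
      rw [ENNReal.ofReal_pow (by norm_num), ← e1]
    rw [e2, e1, ← ENNReal.ofReal_mul (by norm_num), ← ENNReal.ofReal_mul (by positivity),
      ← ENNReal.ofReal_mul (by positivity)]
    refine ENNReal.ofReal_le_ofReal ?_
    have e3 : δ ^ (((n : ℝ) - 1) / q) * (Fintype.card ι : ℝ) ^ (1 - 1 / (q * ((n : ℝ) - 1))) =
        rhs n q δ (Fintype.card ι) := rfl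
    rw [e3]
    nlinarith
  refine ⟨?_, ?_, ?_⟩
  · -- the endpoint with coefficients
    obtain ⟨C, hC, h⟩ := ker_end hn
    have hr : 1 < q₀ / (q₀ - 1) := by rw [lt_div_iff₀ (by linarith)]; linarith
    set D : ℝ := (cH (q₀ / (q₀ - 1))).toReal with hD
    have hD0 : 0 ≤ D := ENNReal.toReal_nonneg
    have hDe : cH (q₀ / (q₀ - 1)) = ENNReal.ofReal D :=
      (ENNReal.ofReal_toReal (cH_ne_top hr)).symm
    refine ⟨2 ^ n * (C * (2 * D)) + 1, by positivity, ?_⟩
    intro ι _ a e δ c hs K hKe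
    obtain ⟨hδ, hδ1, he, hsep⟩ := hs
    refine three_of hq₀1 (total_meas δ a e c) ?_
    have e0 : 1 / (n : ℝ) = 1 - 1 / q₀ := by rw [hq₀]; field_simp; ring
    have h1 := all_of (a := a) (c := c) hδ he hq₀1 (ENNReal.ofReal
      (C * δ ^ (((n : ℝ) - 1) * (((n : ℝ) - 1) / n))) *
      (∑ i, c i ^ q₀) ^ (((n : ℝ) - 1) / n)) (fun B hB => by
        rw [← e0]
        exact h δ hδ hδ1 e he hsep c B hB)
    intro F G hF hG
    refine (h1 F G hF hG).trans ?_
    gcongr ?_ * _ * _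
    rw [hKe, hDe, ENNReal.mul_rpow_of_nonneg _ _ (by positivity),
      ENNReal.ofReal_rpow_of_nonneg (by positivity) (by positivity), ← Real.rpow_mul hδ.le]
    set S : ℝ≥0∞ := (∑ i, c i ^ q₀) ^ (((n : ℝ) - 1) / n) with hSd
    have e1 : (2 : ℝ≥0∞) = ENNReal.ofReal 2 := by norm_num
    have e2 : (2 : ℝ≥0∞) ^ n = ENNReal.ofReal (2 ^ n) := by
      rw [ENNReal.ofReal_pow (by norm_num), ← e1]
    have hp : 0 < δ ^ (((n : ℝ) - 1) * (((n : ℝ) - 1) / n)) := Real.rpow_pos_of_pos hδ _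
    calc 2 ^ n * (ENNReal.ofReal (C * δ ^ (((n : ℝ) - 1) * (((n : ℝ) - 1) / n))) * S *
          (2 * ENNReal.ofReal D))
        = ENNReal.ofReal (2 ^ n * (C * δ ^ (((n : ℝ) - 1) * (((n : ℝ) - 1) / n))) * (2 * D)) * S := by
          rw [e2, e1, ENNReal.ofReal_mul (p := 2 ^ n *
            (C * δ ^ (((n : ℝ) - 1) * (((n : ℝ) - 1) / n)))) (by positivity),
            ENNReal.ofReal_mul (p := 2 ^ n) (by positivity), ENNReal.ofReal_mul (p := 2)
            (by norm_num)]
          ring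
      _ ≤ ENNReal.ofReal ((2 ^ n * (C * (2 * D)) + 1) *
            δ ^ (((n : ℝ) - 1) * (((n : ℝ) - 1) / n))) * S := by
          refine mul_le_mul' (ENNReal.ofReal_le_ofReal ?_) le_rfl
          nlinarith
      _ = _ := by
          rw [ENNReal.ofReal_mul (by positivity)]
          ring
  · intro q hq
    have hq1 : 1 < q := hq₀1.trans_le hq
    obtain ⟨C, hC, h⟩ := h2 q hq
    exact ⟨C, hC, fun ι _ a e δ hs => three_of hq1 (total_meas δ a e _) (h ι a e δ hs)⟩
  · intro q hq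
    have hq0 : 0 < q := by linarith
    have hqq : 0 < q - q₀ := by linarith
    obtain ⟨C, hC, h⟩ := h2 q₀ le_rfl
    refine ⟨(q / (q - q₀) * C ^ q₀) ^ (1 / q), by positivity, ?_⟩
    intro ι _ a e δ κ hs hκ hS
    have hT := h ι a e δ hs
    obtain ⟨hδ, hδ1, he, hsep⟩ := hs
    set N : ℕ := Fintype.card ι with hN
    have hMm : Measurable (mult δ a e) := total_meas δ a e _
    have hMN : ∀ x, mult δ a e x ≤ ENNReal.ofReal N := by
      intro x
      unfold mult
      rw [total_eq, ENNReal.ofReal_natCast]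
      calc ∑ i, 1 * ind (cyl (e i) (1 / 2) δ) (x - a i) ≤ ∑ _i : ι, (1 : ℝ≥0∞) := by
            refine Finset.sum_le_sum fun i _ => ?_
            rw [one_mul]; exact ind_le _
        _ = _ := by rw [Finset.sum_const, Finset.card_univ, nsmul_eq_mul, mul_one]
    rcases Nat.eq_zero_or_pos N with hN0 | hN0
    · -- no tubes
      have h0 : ∀ x, mult δ a e x = 0 := by
        intro x
        have := hMN x
        rw [hN0] at this
        simpa using this
      have h1 : lp q (mult δ a e) = 0 := by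
        unfold lp
        simp_rw [h0, ENNReal.zero_rpow_of_pos hq0, lintegral_zero]
        exact ENNReal.zero_rpow_of_pos (by positivity)
      rw [h1]; exact zero_le
    have hNR : (0 : ℝ) < N := by exact_mod_cast hN0
    have hMi : ∫⁻ x, mult δ a e x ≠ ∞ := by
      have : ∀ x, mult δ a e x = ∑ i, 1 * ind (cyl (e i) (1 / 2) δ) (x - a i) := fun x =>
        total_eq δ a e _ x
      simp_rw [this, one_mul]
      have hmi : ∀ i, Measurable fun x : Rn n => ind (cyl (e i) (1 / 2) δ) (x - a i) := fun i =>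
        (ind_meas (cyl_meas _ _ _)).comp (measurable_id.sub_const _)
      rw [lintegral_finsetSum _ fun i _ => hmi i]
      refine (ENNReal.sum_lt_top.2 fun i _ => ?_).ne
      have h3 := lint_trans (cyl (e i) (1 / 2) δ) (cyl_meas _ _ _) (-(a i))
      simp only [← sub_eq_add_neg] at h3
      rw [h3]
      exact (vol_fin (he i) _ _).lt_top
    have hrh : 0 < rhs n q₀ δ N := by unfold rhs; positivity
    have hw := weak_of hq₀1 (mul_pos hC hrh) hMm hMi hT hκ hS
    have hst := strong_of hq₀0 hq (W := (C * rhs n q₀ δ N) ^ q₀ * κ ^ (-(q₀ + 1 / 2)))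
      (by positivity) hNR.le hMm hMN hw
    unfold lp
    have h3 := ENNReal.rpow_le_rpow hst (by positivity : (0 : ℝ) ≤ 1 / q)
    refine h3.trans (le_of_eq ?_)
    rw [ENNReal.ofReal_rpow_of_nonneg (by positivity) (by positivity)]
    congr 1
    have e1 : (C * rhs n q₀ δ N) ^ q₀ * (N : ℝ) ^ (q - q₀) = C ^ q₀ * rhs n q δ N ^ q := by
      unfold rhs
      rw [Real.mul_rpow hC.le (by positivity), Real.mul_rpow (by positivity) (by positivity),
        Real.mul_rpow (by positivity) (by positivity), ← Real.rpow_mul hδ.le, ← Real.rpow_mul hδ.le,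
        ← Real.rpow_mul hNR.le, ← Real.rpow_mul hNR.le]
      have e2 : ((n : ℝ) - 1) / q₀ * q₀ = ((n : ℝ) - 1) / q * q := by field_simp
      rw [e2]
      have e3 : (N : ℝ) ^ ((1 - 1 / (q₀ * ((n : ℝ) - 1))) * q₀) * (N : ℝ) ^ (q - q₀) =
          (N : ℝ) ^ ((1 - 1 / (q * ((n : ℝ) - 1))) * q) := by
        rw [← Real.rpow_add hNR]
        congr 1
        field_simp
        ring
      rw [← e3]
      ring
    have e4 : q / (q - q₀) * ((C * rhs n q₀ δ N) ^ q₀ * κ ^ (-(q₀ + 1 / 2))) * (N : ℝ) ^ (q - q₀) =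
        (q / (q - q₀) * C ^ q₀) * κ ^ (-(q₀ + 1 / 2)) * rhs n q δ N ^ q := by
      calc _ = q / (q - q₀) * κ ^ (-(q₀ + 1 / 2)) *
            ((C * rhs n q₀ δ N) ^ q₀ * (N : ℝ) ^ (q - q₀)) := by ring
        _ = _ := by rw [e1]; ring
    have hrq : 0 < rhs n q δ N := by unfold rhs; positivity
    rw [e4, Real.mul_rpow (by positivity) (by positivity), Real.mul_rpow (by positivity)
      (by positivity), ← Real.rpow_mul hκ.le, ← Real.rpow_mul hrq.le, mul_one_div_cancel hq0.ne',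
      Real.rpow_one]
    congr 3
    ring

end Pool.Agent.N484.Shelf.ConvolutionOperators
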